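import Mathlib

/-!
# MP_376bf0_nt: for `j ≥ 2` the iterated remainder sets have no density

`S n j` is the iterated remainder set `S_j(n)` and `s j n` is its number of elements. The theorem
`result` is a positive answer to Q1: for every `j ≥ 2` the sequence `s_j(n) / n` has no limit, and
`liminf s_j(n) / n < limsup s_j(n) / n`. There are no hypotheses.

Proof. Let `n` be divisible by a large number `B`; we compare `S_j(n)` with `S_j(n + 1)`.

* Up to `n / K + O(1)` elements, an element `r` of `S_j(n)` is the end of a chain `k_0, …, k_j = r`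
  with `n = m_i k_{i-1} + k_i` and `1 ≤ m_i ≤ K`. For given multipliers the ends of the chains are, in
  a range given by inequalities which are stable under small changes, the members of the residue
  class of `a n` modulo `m_1 ⋯ m_j`, where `a` depends on the multipliers only. For `B ∣ n` this is
  the class of `0`; for `n + 1` it is the class of `a`.
* Rogers' inequality (`rogers`): for given moduli, a union of residue classes has the smallest
  density if all the classes are the class of `0`. It is applied in blocks of length `(K!) ^ j`, and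
  gives `main`: in every interval `S_j(n)` has at most as many elements as `S_j(n + 1)`, up to
  `n / K + O(1)`.
* In the interval `(n / (j + 4), n / (j + 3))` the elements `r` of `S_j` are those with
  `r = n - (j + 1) k` or `r = n - (j + 2) k` with `k ∈ S_{j-1}` (`sub_P`, `P_sub`). For `n` both parts
  contain all multiples of `(j + 2)!` (`inter_P`). For `n + 1` the two parts are disjoint (`P_disj`);
  this uses `n + 1 ≡ 1` modulo `j` and modulo `j + 1`, so that it needs `j ≥ 2`. Each part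
  for `n` has at most as many elements as that for `n + 1`, up to `n / K + O(1)` (`P_compare`). So
  `S_j(n + 1)` has more elements than `S_j(n)` by at least `η n - O(1)` with `η > 0` (`gain`), and
  `s_j(n) / n` does not converge.
-/

set_option autoImplicit false

open Finset Filter Topology

namespace Pool.Agent.Results.MP_376bf0_nt.NoDensity

/-- The iterated remainder sets: `S_0(n) = {1, …, ⌊n/2⌋}` and
`S_{j+1}(n) = {n mod k : k ∈ S_j(n), k ≠ 0}`. -/
def S (n : ℕ) : ℕ → Finset ℕ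
  | 0 => Icc 1 (n / 2)
  | j + 1 => ((S n j).erase 0).image fun k => n % k

/-- `s_j(n) = |S_j(n)|`. -/
def s (j n : ℕ) : ℕ := (S n j).card

/-! ### Rogers: the union of residue classes is smallest if all classes are zero -/

section rogers

lemma crt_card {a b : ℕ} (ha : 0 < a) (hb : 0 < b) (h : a.Coprime b) (Q : ℕ → ℕ → Prop)
    [DecidablePred fun x => Q (x % a) (x % b)] [∀ v, DecidablePred fun u => Q u v] :
    #{x ∈ range (a * b) | Q (x % a) (x % b)} = ∑ v ∈ range b, #{u ∈ range a | Q u v} := by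
  classical
  have h1 : ∑ v ∈ range b, #{u ∈ range a | Q u v} =
      #{p ∈ range a ×ˢ range b | Q p.1 p.2} := by
    rw [Finset.card_filter, Finset.sum_product_right]
    simp only [Finset.card_filter]
  rw [h1]
  refine Finset.card_nbij' (fun x => (x % a, x % b))
    (fun p => (Nat.chineseRemainder h p.1 p.2 : ℕ)) ?_ ?_ ?_ ?_
  · intro x hx
    simp only [coe_filter, mem_range, Set.mem_ofPred_eq, mem_product] at hx ⊢
    exact ⟨⟨Nat.mod_lt _ ha, Nat.mod_lt _ hb⟩, hx.2⟩
  · rintro ⟨u, v⟩ hp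
    simp only [coe_filter, mem_range, Set.mem_ofPred_eq, mem_product] at hp ⊢
    have h2 := (Nat.chineseRemainder h u v).2
    refine ⟨Nat.chineseRemainder_lt_mul h u v ha.ne' hb.ne', ?_⟩
    have h3 : (Nat.chineseRemainder h u v : ℕ) % a = u := by
      rw [h2.1, Nat.mod_eq_of_lt hp.1.1]
    have h4 : (Nat.chineseRemainder h u v : ℕ) % b = v := by
      rw [h2.2, Nat.mod_eq_of_lt hp.1.2]
    rw [h3, h4]
    exact hp.2
  · intro x hx
    simp only [coe_filter, mem_range, Set.mem_ofPred_eq] at hx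
    have h2 := (Nat.chineseRemainder h (x % a) (x % b)).2
    have h3 : (Nat.chineseRemainder h (x % a) (x % b) : ℕ) ≡ x [MOD a * b] := by
      rw [← Nat.modEq_and_modEq_iff_modEq_mul h]
      exact ⟨h2.1.trans (Nat.mod_modEq _ _), h2.2.trans (Nat.mod_modEq _ _)⟩
    exact Nat.ModEq.eq_of_lt_of_lt h3
      (Nat.chineseRemainder_lt_mul h _ _ ha.ne' hb.ne') hx.1
  · rintro ⟨u, v⟩ hp
    simp only [coe_filter, mem_range, Set.mem_ofPred_eq, mem_product] at hp
    have h2 := (Nat.chineseRemainder h u v).2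
    simp only [Prod.mk.injEq]
    refine ⟨?_, ?_⟩
    · rw [h2.1, Nat.mod_eq_of_lt hp.1.1]
    · rw [h2.2, Nat.mod_eq_of_lt hp.1.2]

open Classical

/-- The inequality of Rogers modulo `M`. -/
def Rog (M : ℕ) : Prop := ∀ (J : Finset (List ℕ)) (N : List ℕ → ℕ) (c : List ℕ → ℤ),
  (∀ i ∈ J, N i ∣ M) →
    #{x ∈ range M | ∃ i ∈ J, N i ∣ x} ≤ #{x ∈ range M | ∃ i ∈ J, (N i : ℤ) ∣ ((x : ℕ) : ℤ) - c i}

lemma card_class {M d : ℕ} (hM : 0 < M) (hd : d ∣ M) (c : ℤ) :
    #{x ∈ range M | (d : ℤ) ∣ ((x : ℕ) : ℤ) - c} = M / d := by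
  have hd0 : 0 < d := Nat.pos_of_dvd_of_pos hd hM
  have h1 : ∀ x : ℕ, (d : ℤ) ∣ (x : ℤ) - c ↔ x ≡ (c % d).toNat [MOD d] := by
    intro x
    have h2 : (((c % d).toNat : ℕ) : ℤ) = c % d :=
      Int.toNat_of_nonneg (Int.emod_nonneg _ (by exact_mod_cast hd0.ne'))
    rw [← Int.natCast_modEq_iff, h2]
    constructor
    · intro h
      have h3 : c ≡ (x : ℤ) [ZMOD d] := (Int.modEq_iff_dvd).mpr h
      exact h3.symm.trans (Int.mod_modEq c d).symm
    · intro h
      have h3 : c ≡ (x : ℤ) [ZMOD d] := (Int.mod_modEq c d).symm.trans h.symm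
      exact (Int.modEq_iff_dvd).mp h3
  simp only [h1]
  rw [← Nat.count_eq_card_filter_range, Nat.count_modEq_card _ hd0, Nat.mod_eq_zero_of_dvd hd]
  simp

lemma rog_prime_pow (p e : ℕ) (hp : p.Prime) : Rog (p ^ e) := by
  intro J N c hN
  rcases J.eq_empty_or_nonempty with rfl | hJ
  · simp
  obtain ⟨i0, hi0, hmin⟩ := J.exists_min_image N hJ
  have hpos : 0 < p ^ e := pow_pos hp.pos e
  have h1 : ∀ i ∈ J, N i0 ∣ N i := by
    intro i hi
    obtain ⟨v, -, hv⟩ := (Nat.dvd_prime_pow hp).mp (hN i hi)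
    obtain ⟨v0, -, hv0⟩ := (Nat.dvd_prime_pow hp).mp (hN i0 hi0)
    have h2 := hmin i hi
    rw [hv, hv0] at h2 ⊢
    exact pow_dvd_pow p ((Nat.pow_le_pow_iff_right hp.one_lt).mp h2)
  calc #{x ∈ range (p ^ e) | ∃ i ∈ J, N i ∣ x}
      ≤ #{x ∈ range (p ^ e) | (N i0 : ℤ) ∣ ((x : ℕ) : ℤ) - 0} := by
        refine card_le_card fun x hx => ?_
        simp only [mem_filter] at hx ⊢
        obtain ⟨hx, i, hi, hd⟩ := hx
        refine ⟨hx, ?_⟩
        rw [sub_zero]
        exact_mod_cast (h1 i hi).trans hd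
    _ = #{x ∈ range (p ^ e) | (N i0 : ℤ) ∣ ((x : ℕ) : ℤ) - c i0} := by
        rw [card_class hpos (hN i0 hi0), card_class hpos (hN i0 hi0)]
    _ ≤ _ := by
        refine card_le_card fun x hx => ?_
        simp only [mem_filter] at hx ⊢
        exact ⟨hx.1, i0, hi0, hx.2⟩

lemma dvd_split {a b N : ℕ} (h : a.Coprime b) (hN : N ∣ a * b) (x : ℕ) (c : ℤ) :
    (N : ℤ) ∣ (x : ℤ) - c ↔ ((N.gcd a : ℕ) : ℤ) ∣ ((x % a : ℕ) : ℤ) - c ∧
      ((N.gcd b : ℕ) : ℤ) ∣ ((x % b : ℕ) : ℤ) - c := by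
  have h1 : N = N.gcd a * N.gcd b := by
    rw [← Nat.Coprime.gcd_mul N h, Nat.gcd_eq_left hN]
  have h2 : (N.gcd a).Coprime (N.gcd b) :=
    Nat.Coprime.coprime_dvd_left (Nat.gcd_dvd_right _ _)
      (Nat.Coprime.coprime_dvd_right (Nat.gcd_dvd_right _ _) h)
  have h3 : ∀ d m : ℕ, d ∣ m → (((d : ℤ) ∣ (x : ℤ) - c) ↔ (d : ℤ) ∣ ((x % m : ℕ) : ℤ) - c) := by
    intro d m hd
    have h4 : (x : ℤ) - c = (((x % m : ℕ) : ℤ) - c) + m * (x / m : ℕ) := by
      have := Nat.mod_add_div x m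
      have h5 : ((x % m : ℕ) : ℤ) + m * (x / m : ℕ) = x := by exact_mod_cast this
      linarith
    rw [h4]
    exact dvd_add_left (Dvd.dvd.mul_right (by exact_mod_cast hd) _)
  rw [← h3 _ a (Nat.gcd_dvd_right _ _), ← h3 _ b (Nat.gcd_dvd_right _ _)]
  have h6 : IsCoprime ((N.gcd a : ℕ) : ℤ) ((N.gcd b : ℕ) : ℤ) :=
    Nat.isCoprime_iff_coprime.mpr h2
  constructor
  · intro hd
    refine ⟨(?_ : _ ∣ _).trans hd, (?_ : _ ∣ _).trans hd⟩
    · exact_mod_cast Nat.gcd_dvd_left N a
    · exact_mod_cast Nat.gcd_dvd_left N b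
  · rintro ⟨ha, hb⟩
    have h7 := h6.mul_dvd ha hb
    rw [h1]
    exact_mod_cast h7

lemma rog_mul {a b : ℕ} (ha : 0 < a) (hb : 0 < b) (h : a.Coprime b) (hA : Rog a) (hB : Rog b) :
    Rog (a * b) := by
  intro J N c hN
  have h0 : ∀ x : ℕ, (∃ i ∈ J, N i ∣ x) ↔
      ∃ i ∈ J, (N i).gcd a ∣ x % a ∧ (N i).gcd b ∣ x % b := by
    intro x
    refine exists_congr fun i => and_congr_right fun hi => ?_
    have h1 := dvd_split h (hN i hi) x 0
    simp only [sub_zero] at h1
    exact_mod_cast h1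
  have h1 : ∀ x : ℕ, (∃ i ∈ J, (N i : ℤ) ∣ (x : ℤ) - c i) ↔
      ∃ i ∈ J, (((N i).gcd a : ℕ) : ℤ) ∣ ((x % a : ℕ) : ℤ) - c i ∧
        (((N i).gcd b : ℕ) : ℤ) ∣ ((x % b : ℕ) : ℤ) - c i := by
    intro x
    exact exists_congr fun i => and_congr_right fun hi => dvd_split h (hN i hi) x (c i)
  simp only [h0, h1]
  rw [crt_card ha hb h (fun u v => ∃ i ∈ J, (N i).gcd a ∣ u ∧ (N i).gcd b ∣ v),
    crt_card ha hb h (fun u v => ∃ i ∈ J, (((N i).gcd a : ℕ) : ℤ) ∣ (u : ℤ) - c i ∧
        (((N i).gcd b : ℕ) : ℤ) ∣ (v : ℤ) - c i)]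
  calc ∑ v ∈ range b, #{u ∈ range a | ∃ i ∈ J, (N i).gcd a ∣ u ∧ (N i).gcd b ∣ v}
      = ∑ u ∈ range a, #{v ∈ range b | ∃ i ∈ J, (N i).gcd a ∣ u ∧ (N i).gcd b ∣ v} :=
        (Finset.sum_card_bipartiteAbove_eq_sum_card_bipartiteBelow
          (fun u v => ∃ i ∈ J, (N i).gcd a ∣ u ∧ (N i).gcd b ∣ v)).symm
    _ ≤ ∑ u ∈ range a, #{v ∈ range b | ∃ i ∈ J, (N i).gcd a ∣ u ∧
          (((N i).gcd b : ℕ) : ℤ) ∣ ((v : ℕ) : ℤ) - c i} := by
        refine Finset.sum_le_sum fun u _ => ?_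
        have h2 := hB {i ∈ J | (N i).gcd a ∣ u} (fun i => (N i).gcd b) c
          (fun i _ => Nat.gcd_dvd_right _ _)
        simp only [mem_filter, and_assoc] at h2
        exact h2
    _ = ∑ v ∈ range b, #{u ∈ range a | ∃ i ∈ J, (N i).gcd a ∣ u ∧
          (((N i).gcd b : ℕ) : ℤ) ∣ (v : ℤ) - c i} :=
        Finset.sum_card_bipartiteAbove_eq_sum_card_bipartiteBelow
          (fun (u v : ℕ) => ∃ i ∈ J, (N i).gcd a ∣ u ∧
            (((N i).gcd b : ℕ) : ℤ) ∣ (v : ℤ) - c i)
    _ ≤ _ := by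
        refine Finset.sum_le_sum fun v _ => ?_
        have h2 := hA {i ∈ J | (((N i).gcd b : ℕ) : ℤ) ∣ (v : ℤ) - c i} (fun i => (N i).gcd a) c
          (fun i _ => Nat.gcd_dvd_right _ _)
        simp only [mem_filter, and_assoc] at h2
        have h3 : ∀ u : ℕ, (∃ i ∈ J, (N i).gcd a ∣ u ∧ (((N i).gcd b : ℕ) : ℤ) ∣ (v : ℤ) - c i) ↔
            ∃ i ∈ J, (((N i).gcd b : ℕ) : ℤ) ∣ (v : ℤ) - c i ∧ (N i).gcd a ∣ u :=
          fun u => exists_congr fun i => and_congr_right fun _ => and_comm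
        have h4 : ∀ u : ℕ, (∃ i ∈ J, (((N i).gcd a : ℕ) : ℤ) ∣ (u : ℤ) - c i ∧
            (((N i).gcd b : ℕ) : ℤ) ∣ (v : ℤ) - c i) ↔
            ∃ i ∈ J, (((N i).gcd b : ℕ) : ℤ) ∣ (v : ℤ) - c i ∧
              (((N i).gcd a : ℕ) : ℤ) ∣ (u : ℤ) - c i :=
          fun u => exists_congr fun i => and_congr_right fun _ => and_comm
        simp only [h3, h4]
        exact h2

theorem rogers {M : ℕ} (hM : 0 < M) : Rog M := by
  induction M using Nat.recOnPosPrimePosCoprime with
  | prime_pow p n hp _ => exact rog_prime_pow p n hp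
  | zero => exact absurd hM (lt_irrefl _)
  | one => simpa using rog_prime_pow 2 0 Nat.prime_two
  | coprime a b ha hb h hA hB =>
    exact rog_mul (by omega) (by omega) h (hA (by omega)) (hB (by omega))

/-- The inequality in an interval of length `M`. -/
theorem rogers_Ico {M : ℕ} (hM : 0 < M) (u : ℕ) (J : Finset (List ℕ)) (N : List ℕ → ℕ)
    (c : List ℕ → ℤ) (hN : ∀ i ∈ J, N i ∣ M) :
    #{x ∈ Ico u (u + M) | ∃ i ∈ J, N i ∣ x} ≤
      #{x ∈ Ico u (u + M) | ∃ i ∈ J, (N i : ℤ) ∣ ((x : ℕ) : ℤ) - c i} := by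
  rw [Nat.filter_Ico_card_eq_of_periodic, Nat.filter_Ico_card_eq_of_periodic,
    Nat.count_eq_card_filter_range, Nat.count_eq_card_filter_range]
  · exact rogers hM J N c hN
  · intro x
    simp only [eq_iff_iff]
    refine exists_congr fun i => and_congr_right fun hi => ?_
    have h1 : ((x + M : ℕ) : ℤ) - c i = ((x : ℤ) - c i) + M := by push_cast; ring
    rw [h1]
    exact dvd_add_left (by exact_mod_cast hN i hi)
  · intro x
    simp only [eq_iff_iff]
    exact exists_congr fun i => and_congr_right fun hi => (Nat.dvd_add_left (hN i hi))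

end rogers

/-! ### Chains -/

/-- `Ch δ n l r`: `r` is obtained from some `k_0` by a chain `k_i = n - m_i k_{i-1}`, where `l` is the
list of the multipliers (the last one first), with slack `δ` in all inequalities. -/
def Ch (δ n : ℕ) : List ℕ → ℕ → Prop
  | [], r => δ ≤ r ∧ 2 * r + δ ≤ n
  | m :: l, r => δ ≤ r ∧ ∃ k, n = m * k + r ∧ r + δ ≤ k ∧ Ch δ n l k

/-- The residue class of the chains with multipliers `l` is the class of `aa l * n`. -/
def aa : List ℕ → ℤ
  | [] => 0
  | m :: l => 1 - m * aa l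

lemma Ch.le {δ n : ℕ} {l : List ℕ} {r : ℕ} (h : Ch δ n l r) : 2 * r + δ ≤ n := by
  induction l generalizing r with
  | nil => exact h.2
  | cons m l ih =>
    obtain ⟨-, k, -, h1, h2⟩ := h
    have := ih h2
    omega

lemma Ch.slack {δ n : ℕ} {l : List ℕ} {r : ℕ} (h : Ch δ n l r) : δ ≤ r := by
  cases l with
  | nil => exact h.1
  | cons m l => exact h.1

lemma Ch.dvd {δ n : ℕ} {l : List ℕ} {r : ℕ} (h : Ch δ n l r) (hn : l.prod ∣ n) : l.prod ∣ r := by
  induction l generalizing r with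
  | nil => simp
  | cons m l ih =>
    obtain ⟨-, k, h0, -, h2⟩ := h
    rw [List.prod_cons] at hn ⊢
    have h3 := ih h2 ((Dvd.intro_left m rfl).trans hn)
    have h4 : m * l.prod ∣ m * k := Nat.mul_dvd_mul_left m h3
    rw [h0] at hn
    exact (Nat.dvd_add_right h4).mp hn

/-- A chain for `n` gives a chain for `n + 1`, for all numbers near `r` in the right class. -/
lemma transfer {δ n : ℕ} {l : List ℕ} : ∀ {r r' W : ℕ}, Ch δ n l r → r' ≤ r + W → r ≤ r' + W →
    2 * (W + l.length) + 2 ≤ δ → (l.prod : ℤ) ∣ (r' : ℤ) - aa l * ((n + 1 : ℕ) : ℤ) →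
    r' ∈ S (n + 1) l.length := by
  induction l with
  | nil =>
    intro r r' W h h1 h2 h3 _
    have h4 := h.slack
    have h5 := h.le
    simp only [List.length_nil] at h3
    simp only [List.length_nil, S, mem_Icc]
    omega
  | cons m l ih =>
    intro r r' W h h1 h2 h3 h4
    obtain ⟨h5, k, h6, h7, h8⟩ := h
    have h9 := h8.le
    have hm : 1 ≤ m := by
      rcases Nat.eq_zero_or_pos m with rfl | hm
      · omega
      · exact hm
    rw [List.length_cons] at h3 ⊢
    rw [List.prod_cons, aa] at h4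
    obtain ⟨t, ht⟩ := h4
    have h10 : ((n + 1 : ℕ) : ℤ) - r' = m * (aa l * ((n + 1 : ℕ) : ℤ) - l.prod * t) := by
      push_cast at ht ⊢
      linear_combination -ht
    have h11 : (n : ℤ) = m * k + r := by exact_mod_cast h6
    have hm' : (1 : ℤ) ≤ m := by exact_mod_cast hm
    have h12 : (m : ℤ) * ((aa l * ((n + 1 : ℕ) : ℤ) - l.prod * t) - k) = 1 + r - r' := by
      rw [mul_sub, ← h10]
      push_cast
      linarith
    generalize hk : aa l * ((n + 1 : ℕ) : ℤ) - l.prod * t = k' at h10 h12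
    have h13 : |k' - (k : ℤ)| ≤ 1 + W := by
      have h14 : |(m : ℤ) * (k' - k)| ≤ 1 + W := by
        rw [h12, abs_le]
        constructor <;> omega
      rw [abs_mul, abs_of_pos (by linarith : (0 : ℤ) < m)] at h14
      calc |k' - (k : ℤ)| = 1 * |k' - (k : ℤ)| := (one_mul _).symm
        _ ≤ m * |k' - (k : ℤ)| := mul_le_mul_of_nonneg_right hm' (abs_nonneg _)
        _ ≤ _ := h14
    rw [abs_le] at h13
    have h14 : 0 ≤ k' := by omega
    obtain ⟨k1, rfl⟩ := Int.eq_ofNat_of_zero_le h14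
    have h15 : r' < k1 := by omega
    have h16 : n + 1 = m * k1 + r' := by
      have : ((n + 1 : ℕ) : ℤ) = ((m * k1 + r' : ℕ) : ℤ) := by
        push_cast at h10 ⊢
        linarith
      exact_mod_cast this
    have h17 : k1 ∈ S (n + 1) l.length := by
      refine ih (W := W + 1) h8 (by omega) (by omega) (by omega) ?_
      rw [← hk]
      exact ⟨-t, by ring⟩
    simp only [S, mem_image, mem_erase]
    refine ⟨k1, ⟨by omega, h17⟩, ?_⟩
    rw [h16, Nat.mul_add_mod_of_lt h15]

/-- The lists of length `j` with entries in `{1, …, K}`. -/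
def LL (K : ℕ) : ℕ → Finset (List ℕ)
  | 0 => {[]}
  | j + 1 => ((Icc 1 K) ×ˢ LL K j).image fun p => p.1 :: p.2

lemma mem_LL_cons {K j m : ℕ} {l : List ℕ} (hm : 1 ≤ m) (hm' : m ≤ K) (hl : l ∈ LL K j) :
    m :: l ∈ LL K (j + 1) := by
  simp only [LL, mem_image, mem_product, mem_Icc]
  exact ⟨(m, l), ⟨⟨hm, hm'⟩, hl⟩, rfl⟩

lemma LL_spec {K j : ℕ} {l : List ℕ} (hl : l ∈ LL K j) :
    l.length = j ∧ l.prod ∣ K.factorial ^ j := by
  induction j generalizing l with
  | zero =>
    simp only [LL, mem_singleton] at hl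
    subst hl
    simp
  | succ j ih =>
    simp only [LL, mem_image, mem_product, mem_Icc] at hl
    obtain ⟨⟨m, l'⟩, ⟨⟨hm, hm'⟩, hl'⟩, rfl⟩ := hl
    obtain ⟨h1, h2⟩ := ih hl'
    refine ⟨by simp [h1], ?_⟩
    rw [List.prod_cons, pow_succ']
    exact Nat.mul_dvd_mul (Nat.dvd_factorial (by omega) hm') h2

/-- The numbers `k ≥ n / K` with `k - (n mod k) < δ`. -/
def E (K δ n : ℕ) : Finset ℕ := {k ∈ Icc 1 n | n ≤ K * k ∧ k < n % k + δ}

/-- The numbers which are obtained from a chain without slack. -/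
def Bad (K δ n : ℕ) : ℕ → Finset ℕ
  | 0 => {r ∈ Icc 1 (n / 2) | n < 2 * r + δ}
  | j + 1 => (Bad K δ n j).image (fun k => n % k) ∪ (E K δ n).image (fun k => n % k)

lemma card_E (K δ n : ℕ) : (E K δ n).card ≤ (δ + 1) * (K + 2) := by
  have h1 : (E K δ n).card ≤ (range (δ + 1) ×ˢ range (K + 2)).card := by
    refine Finset.card_le_card_of_injOn (fun k => (k - n % k, n / k + 1)) ?_ ?_
    · intro k hk
      simp only [E, coe_filter, mem_Icc, Set.mem_ofPred_eq] at hk
      obtain ⟨⟨h1, h2⟩, h3, h4⟩ := hk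
      simp only [coe_product, coe_range, Set.mem_prod, Set.mem_Iio]
      have h5 : n / k ≤ K := Nat.div_le_of_le_mul (by rw [mul_comm]; exact h3)
      omega
    · intro k hk k' hk' he
      simp only [E, coe_filter, mem_Icc, Set.mem_ofPred_eq] at hk hk'
      simp only [Prod.mk.injEq] at he
      obtain ⟨h1, h2⟩ := he
      have h3 : n % k < k := Nat.mod_lt _ (by omega)
      have h4 : n % k' < k' := Nat.mod_lt _ (by omega)
      have h5 := Nat.div_add_mod n k
      have h6 := Nat.div_add_mod n k'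
      have h7 : n / k' = n / k := by omega
      rw [h7] at h6
      have h8 : k * (n / k + 1) = k' * (n / k + 1) := by
        rw [mul_add, mul_add, mul_one, mul_one]
        omega
      exact Nat.eq_of_mul_eq_mul_right (Nat.succ_pos _) h8
  rwa [card_product, card_range, card_range] at h1

lemma card_Bad (K δ n j : ℕ) : (Bad K δ n j).card ≤ (δ + 1) + j * ((δ + 1) * (K + 2)) := by
  induction j with
  | zero =>
    have h1 : Bad K δ n 0 ⊆ Icc (n / 2 - δ) (n / 2) := by
      intro r hr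
      simp only [Bad, mem_filter, mem_Icc] at hr ⊢
      omega
    have h2 := card_le_card h1
    rw [Nat.card_Icc] at h2
    omega
  | succ j ih =>
    calc (Bad K δ n (j + 1)).card
        ≤ ((Bad K δ n j).image (fun k => n % k)).card + ((E K δ n).image (fun k => n % k)).card :=
          card_union_le _ _
      _ ≤ (Bad K δ n j).card + (E K δ n).card := add_le_add card_image_le card_image_le
      _ ≤ ((δ + 1) + j * ((δ + 1) * (K + 2))) + (δ + 1) * (K + 2) := add_le_add ih (card_E _ _ _)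
      _ = _ := by ring

lemma mem_S_bound {n j k : ℕ} (h : k ∈ S n j) : (j + 2) * k ≤ n := by
  induction j generalizing k with
  | zero =>
    simp only [S, mem_Icc] at h
    omega
  | succ j ih =>
    simp only [S, mem_image, mem_erase] at h
    obtain ⟨κ, ⟨h0, h1⟩, rfl⟩ := h
    have h2 := ih h1
    have h3 : n % κ < κ := Nat.mod_lt _ (by omega)
    have h4 : j + 2 ≤ n / κ := (Nat.le_div_iff_mul_le (by omega)).mpr h2
    have h5 := Nat.div_add_mod n κ
    calc (j + 1 + 2) * (n % κ) = (j + 2) * (n % κ) + n % κ := by ring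
      _ ≤ κ * (n / κ) + n % κ := by
          refine Nat.add_le_add_right ?_ _
          rw [mul_comm κ]
          exact Nat.mul_le_mul h4 h3.le
      _ = n := h5

lemma chain_or_bad {K δ n j : ℕ} : ∀ {r : ℕ}, r ∈ S n j → n ≤ K * r → δ ≤ r →
    r ∈ Bad K δ n j ∨ ∃ l ∈ LL K j, Ch δ n l r := by
  induction j with
  | zero =>
    intro r hr _ h2
    simp only [S] at hr
    by_cases h3 : n < 2 * r + δ
    · left
      simp only [Bad, mem_filter]
      exact ⟨hr, h3⟩
    · right
      exact ⟨[], by simp [LL], h2, by omega⟩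
  | succ j ih =>
    intro r hr h1 h2
    simp only [S, mem_image, mem_erase] at hr
    obtain ⟨k, ⟨hk0, hk⟩, rfl⟩ := hr
    have h3 : n % k < k := Nat.mod_lt _ (by omega)
    have h4 : n ≤ K * k := h1.trans (Nat.mul_le_mul_left K h3.le)
    have h5 := mem_S_bound hk
    have h5' : 2 * k ≤ n := (Nat.mul_le_mul_right k (by omega)).trans h5
    rcases ih hk h4 (by omega) with h6 | ⟨l, hl, h6⟩
    · left
      simp only [Bad, mem_union, mem_image]
      exact Or.inl ⟨k, h6, rfl⟩
    · by_cases h7 : n % k + δ ≤ k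
      · right
        refine ⟨n / k :: l, mem_LL_cons ?_ ?_ hl, h2, k, ?_, h7, h6⟩
        · exact (Nat.le_div_iff_mul_le (by omega)).mpr (by omega)
        · exact Nat.div_le_of_le_mul (by rw [mul_comm]; exact h4)
        · rw [mul_comm]
          exact (Nat.div_add_mod n k).symm
      · left
        simp only [Bad, mem_union, mem_image]
        refine Or.inr ⟨k, ?_, rfl⟩
        simp only [E, mem_filter, mem_Icc]
        omega

section blocks

open Classical

lemma block {K δ n j : ℕ} (hK : K.factorial ^ j ∣ n) (hδ : 2 * (K.factorial ^ j + j) + 2 ≤ δ)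
    (u : ℕ) : #{r ∈ Ico u (u + K.factorial ^ j) | ∃ l ∈ LL K j, Ch δ n l r} ≤
      #{r ∈ Ico u (u + K.factorial ^ j) | r ∈ S (n + 1) j} := by
  set M := K.factorial ^ j with hM
  have hM0 : 0 < M := pow_pos (Nat.factorial_pos K) j
  set J : Finset (List ℕ) := {l ∈ LL K j | ∃ r ∈ Ico u (u + M), Ch δ n l r} with hJ
  calc #{r ∈ Ico u (u + M) | ∃ l ∈ LL K j, Ch δ n l r}
      ≤ #{r ∈ Ico u (u + M) | ∃ l ∈ J, l.prod ∣ r} := by
        refine card_le_card fun r hr => ?_
        simp only [mem_filter] at hr ⊢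
        obtain ⟨hr, l, hl, h1⟩ := hr
        refine ⟨hr, l, ?_, h1.dvd ((LL_spec hl).2.trans hK)⟩
        rw [hJ, mem_filter]
        exact ⟨hl, r, hr, h1⟩
    _ ≤ #{r ∈ Ico u (u + M) | ∃ l ∈ J, ((l.prod : ℕ) : ℤ) ∣
          ((r : ℕ) : ℤ) - aa l * ((n + 1 : ℕ) : ℤ)} :=
        rogers_Ico hM0 u J (fun l => l.prod) (fun l => aa l * ((n + 1 : ℕ) : ℤ))
          (fun l hl => by
            rw [hJ, mem_filter] at hl
            exact (LL_spec hl.1).2)
    _ ≤ _ := by
        refine card_le_card fun r hr => ?_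
        simp only [mem_filter] at hr ⊢
        obtain ⟨hr, l, hl, h1⟩ := hr
        refine ⟨hr, ?_⟩
        rw [hJ, mem_filter] at hl
        obtain ⟨hl, r0, hr0, h2⟩ := hl
        have h3 := (LL_spec hl).1
        rw [← h3]
        rw [mem_Ico] at hr hr0
        refine transfer (W := M) h2 (by omega) (by omega) (by omega) ?_
        exact_mod_cast h1

lemma blocks {K δ n j : ℕ} (hK : K.factorial ^ j ∣ n) (hδ : 2 * (K.factorial ^ j + j) + 2 ≤ δ)
    (t : ℕ) : ∀ a b : ℕ, b - a ≤ t → #{r ∈ Ico a b | ∃ l ∈ LL K j, Ch δ n l r} ≤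
      #{r ∈ Ico a b | r ∈ S (n + 1) j} + K.factorial ^ j := by
  set M := K.factorial ^ j with hM
  have hM0 : 0 < M := pow_pos (Nat.factorial_pos K) j
  induction t using Nat.strong_induction_on with
  | _ t ih =>
    intro a b hab
    by_cases h1 : b - a ≤ M
    · calc #{r ∈ Ico a b | ∃ l ∈ LL K j, Ch δ n l r} ≤ #(Ico a b) := card_filter_le _ _
        _ = b - a := Nat.card_Ico _ _
        _ ≤ _ := by omega
    · have h2 : Ico a b = Ico a (a + M) ∪ Ico (a + M) b :=
        (Ico_union_Ico_eq_Ico (by omega) (by omega)).symm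
      have h3 : Disjoint (Ico a (a + M)) (Ico (a + M) b) := Ico_disjoint_Ico_consecutive _ _ _
      rw [h2, filter_union, filter_union, card_union_of_disjoint (disjoint_filter_filter h3),
        card_union_of_disjoint (disjoint_filter_filter h3)]
      have h4 := block hK hδ a
      have h5 := ih (b - (a + M)) (by omega) (a + M) b le_rfl
      rw [← hM] at h4
      omega

/-- The main inequality: for `n` divisible by a large number, the set `S_j(n + 1)` has in every
interval at least as many elements as `S_j(n)`, up to `n / K` and a constant. -/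
theorem main (j K : ℕ) (hK0 : 0 < K) : ∃ C : ℕ, ∀ n : ℕ, K.factorial ^ j ∣ n → ∀ a b : ℕ,
    #{r ∈ Ico a b | r ∈ S n j} ≤ #{r ∈ Ico a b | r ∈ S (n + 1) j} + n / K + C := by
  set M := K.factorial ^ j with hM
  set δ := 2 * (M + j) + 2 with hδ
  refine ⟨M + 1 + δ + ((δ + 1) + j * ((δ + 1) * (K + 2))), fun n hn a b => ?_⟩
  have h1 : ({r ∈ Ico a b | r ∈ S n j} : Finset ℕ) ⊆
      ({r ∈ Ico a b | ∃ l ∈ LL K j, Ch δ n l r} ∪ range (n / K + 1)) ∪
        (range δ ∪ Bad K δ n j) := by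
    intro r hr
    simp only [mem_filter] at hr
    obtain ⟨hr, h1⟩ := hr
    simp only [mem_union, mem_filter, mem_range]
    by_cases h2 : n ≤ K * r
    · by_cases h3 : δ ≤ r
      · rcases chain_or_bad h1 h2 h3 with h4 | h4
        · exact Or.inr (Or.inr h4)
        · exact Or.inl (Or.inl ⟨hr, h4⟩)
      · exact Or.inr (Or.inl (by omega))
    · left; right
      rw [not_le] at h2
      have h3 : r ≤ n / K := (Nat.le_div_iff_mul_le hK0).mpr (by rw [mul_comm]; exact h2.le)
      omega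
  have h2 := card_le_card h1
  have h3 := card_union_le ({r ∈ Ico a b | ∃ l ∈ LL K j, Ch δ n l r} ∪ range (n / K + 1))
        (range δ ∪ Bad K δ n j)
  have h4 := card_union_le ({r ∈ Ico a b | ∃ l ∈ LL K j, Ch δ n l r} : Finset ℕ)
    (range (n / K + 1))
  have h5 := card_union_le (range δ) (Bad K δ n j)
  have h6 := card_Bad K δ n j
  have h7 := blocks hn (δ := δ) (by omega) (b - a) a b le_rfl
  rw [card_range] at h4 h5
  rw [← hM] at h7
  omega

/-! ### The numbers between `n / (j + 4)` and `n / (j + 3)` -/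

/-- The remainders `r` in `[u, v)` of `N` with quotient `c` and divisor in `S_i(N)`. -/
noncomputable def P (u v N i c : ℕ) : Finset ℕ := {r ∈ Ico u v | ∃ k ∈ S N i, N = c * k + r}

lemma mem_P {u v N i c r : ℕ} : r ∈ P u v N i c ↔ (u ≤ r ∧ r < v) ∧ ∃ k ∈ S N i, N = c * k + r := by
  simp only [P, mem_filter, mem_Ico]

lemma card_P_le {u v N i c : ℕ} (hc : 0 < c) (hv : v ≤ N) :
    (P u v N i c).card ≤ #{k ∈ Ioc ((N - v) / c) ((N - u) / c) | k ∈ S N i} := by
  refine Finset.card_le_card_of_injOn (fun r => (N - r) / c) ?_ ?_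
  · intro r hr
    rw [mem_coe, mem_P] at hr
    obtain ⟨⟨h1, h2⟩, k, hk, h3⟩ := hr
    have h4 : N - r = c * k := by omega
    simp only [coe_filter, mem_Ioc, Set.mem_ofPred_eq, h4, Nat.mul_div_cancel_left _ hc]
    refine ⟨⟨?_, ?_⟩, hk⟩
    · rw [Nat.div_lt_iff_lt_mul hc, mul_comm k, ← h4]
      omega
    · rw [Nat.le_div_iff_mul_le hc, mul_comm k, ← h4]
      omega
  · intro r hr r' hr' he
    rw [mem_coe, mem_P] at hr hr'
    obtain ⟨⟨h1, h2⟩, k, hk, h3⟩ := hr
    obtain ⟨⟨h1', h2'⟩, k', hk', h3'⟩ := hr'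
    have h4 : N - r = c * k := by omega
    have h4' : N - r' = c * k' := by omega
    simp only [h4, h4', Nat.mul_div_cancel_left _ hc] at he
    subst he
    omega

lemma le_card_P {u v N i c : ℕ} (hc : 0 < c) (hv : v ≤ N) (hu : u ≤ N) :
    #{k ∈ Ioc ((N - v) / c) ((N - u) / c) | k ∈ S N i} ≤ (P u v N i c).card := by
  refine Finset.card_le_card_of_injOn (fun k => N - c * k) ?_ ?_
  · intro k hk
    simp only [coe_filter, mem_Ioc, Set.mem_ofPred_eq] at hk
    obtain ⟨⟨h1, h2⟩, h3⟩ := hk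
    rw [Nat.div_lt_iff_lt_mul hc, mul_comm] at h1
    rw [Nat.le_div_iff_mul_le hc, mul_comm] at h2
    change N - c * k ∈ ((P u v N i c : Finset ℕ) : Set ℕ)
    rw [mem_coe, mem_P]
    exact ⟨⟨by omega, by omega⟩, k, h3, by omega⟩
  · intro k hk k' hk' he
    simp only [coe_filter, mem_Ioc, Set.mem_ofPred_eq] at hk hk'
    obtain ⟨⟨h1, h2⟩, h3⟩ := hk
    obtain ⟨⟨h1', h2'⟩, h3'⟩ := hk'
    rw [Nat.le_div_iff_mul_le hc, mul_comm] at h2 h2'
    simp only at he
    have h4 : c * k = c * k' := by omega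
    exact Nat.eq_of_mul_eq_mul_left hc h4

/-- Comparison of the two parts for `n` and for `n + 1`. -/
lemma P_compare {i K C : ℕ} (hC : ∀ n : ℕ, K.factorial ^ i ∣ n → ∀ a b : ℕ,
    #{r ∈ Ico a b | r ∈ S n i} ≤ #{r ∈ Ico a b | r ∈ S (n + 1) i} + n / K + C)
    {u v n c : ℕ} (hn : K.factorial ^ i ∣ n) (hc : 0 < c) (hv : v ≤ n) (hu : u ≤ n) :
    (P u v n i c).card ≤ (P u v (n + 1) i c).card + n / K + C + 1 := by
  have h1 := card_P_le (u := u) (i := i) hc hv
  have h2 := le_card_P (u := u) (v := v) (i := i) hc (N := n + 1) (by omega) (by omega)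
  set A := (n - v) / c with hA
  set B := (n - u) / c with hB
  set A' := (n + 1 - v) / c with hA'
  set B' := (n + 1 - u) / c with hB'
  have h3 : A ≤ A' := Nat.div_le_div_right (by omega)
  have h4 : A' ≤ A + 1 := by
    have h5 : (n + 1 - v) / c ≤ (n - v + c) / c := Nat.div_le_div_right (by omega)
    rwa [Nat.add_div_right _ hc] at h5
  have h5 : B ≤ B' := Nat.div_le_div_right (by omega)
  have h6 : ({k ∈ Ioc A B | k ∈ S n i} : Finset ℕ) ⊆ {k ∈ Ico (A' + 1) (B' + 1) | k ∈ S n i} ∪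
      {A + 1} := by
    intro k hk
    simp only [mem_filter, mem_Ioc] at hk
    simp only [mem_union, mem_filter, mem_Ico, mem_singleton]
    by_cases h7 : k = A + 1
    · exact Or.inr h7
    · left
      exact ⟨by omega, hk.2⟩
  have h7 := card_le_card h6
  have h8 := card_union_le ({k ∈ Ico (A' + 1) (B' + 1) | k ∈ S n i} : Finset ℕ) {A + 1}
  have h9 := hC n hn (A' + 1) (B' + 1)
  have h10 : ({k ∈ Ico (A' + 1) (B' + 1) | k ∈ S (n + 1) i} : Finset ℕ) =
      {k ∈ Ioc A' B' | k ∈ S (n + 1) i} := by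
    ext k
    have h11 : (A' + 1 ≤ k ∧ k < B' + 1) ↔ (A' < k ∧ k ≤ B') := by omega
    simp only [mem_filter, mem_Ico, mem_Ioc, h11]
  rw [h10] at h9
  rw [card_singleton] at h8
  omega

lemma mem_succ {N j r : ℕ} : r ∈ S N (j + 1) ↔ ∃ k ∈ S N j, k ≠ 0 ∧ N % k = r := by
  simp only [S, mem_image, mem_erase]
  constructor
  · rintro ⟨k, ⟨h0, h1⟩, h2⟩
    exact ⟨k, h1, h0, h2⟩
  · rintro ⟨k, h1, h0, h2⟩
    exact ⟨k, ⟨h0, h1⟩, h2⟩

/-- The quotient for an element of `S_{i+1}(N)` which is not too small. -/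
lemma quot {N i r m : ℕ} (h : r ∈ S N (i + 1)) (hr : N < (m + 2) * r + (m + 1)) :
    ∃ k ∈ S N i, ∃ q, i + 2 ≤ q ∧ q ≤ m ∧ N = q * k + r := by
  obtain ⟨k, hk, h0, rfl⟩ := mem_succ.mp h
  have h1 := mem_S_bound hk
  have h2 : N % k < k := Nat.mod_lt _ (by omega)
  refine ⟨k, hk, N / k, (Nat.le_div_iff_mul_le (by omega)).mpr h1, ?_, ?_⟩
  · by_contra h3
    rw [not_le] at h3
    have h4 := Nat.div_add_mod N k
    have h5 : (N % k + 1) * (m + 1) ≤ k * (N / k) := Nat.mul_le_mul (by omega) (by omega)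
    nlinarith
  · rw [mul_comm]
    exact (Nat.div_add_mod N k).symm

lemma sub_P {i n u v : ℕ} (hu : n < (i + 5) * u) : ({r ∈ Ico u v | r ∈ S n (i + 1)} : Finset ℕ) ⊆
    P u v n i (i + 2) ∪ P u v n i (i + 3) := by
  intro r hr
  simp only [mem_filter, mem_Ico] at hr
  obtain ⟨⟨h1, h2⟩, h3⟩ := hr
  have h4 : (i + 5) * u ≤ (i + 5) * r := Nat.mul_le_mul_left _ h1
  have e0 : (i + 3 + 2) * r = (i + 5) * r := rfl
  obtain ⟨k, hk, q, hq, hq', h5⟩ := quot (m := i + 3) h3 (by omega)
  rw [mem_union, mem_P, mem_P]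
  have h6 : q = i + 2 ∨ q = i + 3 := by omega
  rcases h6 with rfl | rfl
  · exact Or.inl ⟨⟨h1, h2⟩, k, hk, h5⟩
  · exact Or.inr ⟨⟨h1, h2⟩, k, hk, h5⟩

lemma mem_top {n i k : ℕ} (hn : (i + 1).factorial ∣ n) (hk : (i + 1).factorial ∣ k) (h1 : 1 ≤ k)
    (h2 : (i + 2) * k < n) : k ∈ S n i := by
  induction i generalizing k with
  | zero =>
    simp only [S, mem_Icc]
    omega
  | succ i ih =>
    rw [mem_succ]
    have h3 : (i + 2).factorial ∣ n - k := Nat.dvd_sub hn hk
    have h4 : (i + 2).factorial = (i + 2) * (i + 1).factorial := Nat.factorial_succ (i + 1)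
    rw [h4] at h3
    obtain ⟨t, ht⟩ := h3
    have h5 : n = (i + 2) * ((i + 1).factorial * t) + k := by
      rw [← mul_assoc, ← ht]
      have : k ≤ n := by nlinarith
      omega
    have h6 : k < (i + 1).factorial * t := by nlinarith
    refine ⟨(i + 1).factorial * t, ?_, by omega, ?_⟩
    · refine ih ((Nat.factorial_dvd_factorial (by omega)).trans hn) (Dvd.intro t rfl) (by omega) ?_
      omega
    · rw [h5, Nat.mul_add_mod_of_lt h6]

lemma inter_P {i n u v : ℕ} (hn : (i + 3).factorial ∣ n) (hu : 1 ≤ u) (hv : (i + 4) * v ≤ n) :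
    ({r ∈ Ico u v | (i + 3).factorial ∣ r} : Finset ℕ) ⊆
      P u v n i (i + 2) ∩ P u v n i (i + 3) := by
  intro r hr
  simp only [mem_filter, mem_Ico] at hr
  obtain ⟨⟨h1, h2⟩, h3⟩ := hr
  have h4 : (i + 3).factorial ∣ n - r := Nat.dvd_sub hn h3
  have h5 : (i + 3).factorial = (i + 3) * ((i + 2) * (i + 1).factorial) := by
    rw [Nat.factorial_succ (i + 2), Nat.factorial_succ (i + 1)]
  have h6 : (i + 4) * r < (i + 4) * v := Nat.mul_lt_mul_of_pos_left h2 (by omega)
  have h7 : r < n := by nlinarith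
  rw [h5] at h4
  obtain ⟨t, ht⟩ := h4
  have h8 : (i + 1).factorial ∣ n := (Nat.factorial_dvd_factorial (by omega)).trans hn
  rw [mem_inter, mem_P, mem_P]
  have ht0 : 0 < t := by
    rcases Nat.eq_zero_or_pos t with rfl | h
    · rw [mul_zero] at ht; omega
    · exact h
  have hf := Nat.factorial_pos (i + 1)
  refine ⟨⟨⟨h1, h2⟩, (i + 1).factorial * ((i + 3) * t), ?_, ?_⟩,
    ⟨⟨h1, h2⟩, (i + 1).factorial * ((i + 2) * t), ?_, ?_⟩⟩
  · refine mem_top h8 (Dvd.intro _ rfl) (Nat.succ_le_of_lt (by positivity)) ?_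
    have : (i + 2) * ((i + 1).factorial * ((i + 3) * t)) = n - r := by rw [ht]; ring
    omega
  · have : (i + 2) * ((i + 1).factorial * ((i + 3) * t)) = n - r := by rw [ht]; ring
    omega
  · have h9 : (i + 3) * ((i + 1).factorial * ((i + 2) * t)) = n - r := by rw [ht]; ring
    refine mem_top h8 (Dvd.intro _ rfl) (Nat.succ_le_of_lt (by positivity)) ?_
    have h10 : 0 < (i + 1).factorial * ((i + 2) * t) := by positivity
    have h11 : (i + 3) * ((i + 1).factorial * ((i + 2) * t)) =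
      (i + 2) * ((i + 1).factorial * ((i + 2) * t)) + (i + 1).factorial * ((i + 2) * t) := by ring
    omega
  · have : (i + 3) * ((i + 1).factorial * ((i + 2) * t)) = n - r := by rw [ht]; ring
    omega

lemma P_sub {i n u v c : ℕ} (hv : (i + 4) * v ≤ n) (hc : c ≤ i + 3) :
    P u v (n + 1) i c ⊆ ({r ∈ Ico u v | r ∈ S (n + 1) (i + 1)} : Finset ℕ) := by
  intro r hr
  rw [mem_P] at hr
  obtain ⟨⟨h1, h2⟩, k, hk, h3⟩ := hr
  have h6 : (i + 4) * r < (i + 4) * v := Nat.mul_lt_mul_of_pos_left h2 (by omega)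
  have h4 : r < k := by
    by_contra h5
    rw [not_lt] at h5
    have h7 : c * k ≤ (i + 3) * r := Nat.mul_le_mul hc h5
    have h8 : (i + 4) * r = (i + 3) * r + r := by ring
    omega
  rw [mem_filter, mem_Ico, mem_succ]
  refine ⟨⟨h1, h2⟩, k, hk, by omega, ?_⟩
  rw [h3, Nat.mul_add_mod_of_lt h4]

lemma P_disj {i n u v : ℕ} (h2 : (i + 2) ∣ n) (h3 : (i + 3) ∣ n) (hv : (i + 5) * v ≤ n) :
    Disjoint (P u v (n + 1) (i + 1) (i + 3)) (P u v (n + 1) (i + 1) (i + 4)) := by
  rw [Finset.disjoint_left]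
  intro r hr hr'
  rw [mem_P] at hr hr'
  obtain ⟨⟨h4, h5⟩, k, hk, h6⟩ := hr
  obtain ⟨-, k', hk', h6'⟩ := hr'
  have h7 : (i + 5) * r < (i + 5) * v := Nat.mul_lt_mul_of_pos_left h5 (by omega)
  have e1 : (i + 5) * r = (i + 4) * r + r := by ring
  have e2 : (i + 4) * k = (i + 3) * k + k := by ring
  have e3 : (i + 5) * k' = (i + 4) * k' + k' := by ring
  -- sizes
  have h8 : n + 1 ≤ (i + 4) * k := by
    have h9 : (i + 3) * (n + 1) ≤ (i + 3) * ((i + 4) * k) := by
      calc (i + 3) * (n + 1) ≤ (i + 4) * (n + 1 - r) := by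
            have h10 : (i + 4) * (n + 1 - r) = (i + 4) * (n + 1) - (i + 4) * r :=
              Nat.mul_sub _ _ _
            have h11 : (i + 4) * (n + 1) = (i + 3) * (n + 1) + (n + 1) := by ring
            omega
        _ = (i + 4) * ((i + 3) * k) := by
            congr 1
            omega
        _ = _ := by ring
    exact Nat.le_of_mul_le_mul_left h9 (by omega)
  have h8' : n + 1 ≤ (i + 5) * k' := by
    have h9 : (i + 4) * (n + 1) ≤ (i + 4) * ((i + 5) * k') := by
      calc (i + 4) * (n + 1) ≤ (i + 5) * (n + 1 - r) := by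
            have h10 : (i + 5) * (n + 1 - r) = (i + 5) * (n + 1) - (i + 5) * r :=
              Nat.mul_sub _ _ _
            have h11 : (i + 5) * (n + 1) = (i + 4) * (n + 1) + (n + 1) := by ring
            omega
        _ = (i + 5) * ((i + 4) * k') := by
            congr 1
            omega
        _ = _ := by ring
    exact Nat.le_of_mul_le_mul_left h9 (by omega)
  have e4 : (i + 2 + 2) * k = (i + 4) * k := rfl
  have e5 : (i + 3 + 2) * k' = (i + 5) * k' := rfl
  obtain ⟨κ, -, q, hq, hq', h9⟩ := quot (m := i + 2) hk (by omega)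
  obtain ⟨κ', -, q', hq1, hq1', h9'⟩ := quot (m := i + 3) hk' (by omega)
  clear e4 e5
  have hqe : q = i + 2 := by omega
  subst hqe
  obtain ⟨a, rfl⟩ : ∃ a, k = (i + 2) * a + 1 := by
    obtain ⟨b, hb⟩ := h2
    have h10 : κ ≤ b := by
      by_contra h11
      rw [not_le] at h11
      have h12 : (i + 2) * (b + 1) ≤ (i + 2) * κ := Nat.mul_le_mul_left _ h11
      have h13 : (i + 2) * (b + 1) = (i + 2) * b + (i + 2) := by ring
      omega
    refine ⟨b - κ, ?_⟩
    rw [Nat.mul_sub]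
    have h11 : (i + 2) * κ ≤ (i + 2) * b := Nat.mul_le_mul_left _ h10
    omega
  have hqe' : q' = i + 2 ∨ q' = i + 3 := by omega
  rcases hqe' with rfl | rfl
  · obtain ⟨a', rfl⟩ : ∃ a, k' = (i + 2) * a + 1 := by
      obtain ⟨b, hb⟩ := h2
      have h10 : κ' ≤ b := by
        by_contra h11
        rw [not_le] at h11
        have h12 : (i + 2) * (b + 1) ≤ (i + 2) * κ' := Nat.mul_le_mul_left _ h11
        have h13 : (i + 2) * (b + 1) = (i + 2) * b + (i + 2) := by ring
        omega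
      refine ⟨b - κ', ?_⟩
      rw [Nat.mul_sub]
      have h11 : (i + 2) * κ' ≤ (i + 2) * b := Nat.mul_le_mul_left _ h10
      omega
    have h10 : (i + 3) * ((i + 2) * a + 1) = (i + 4) * ((i + 2) * a' + 1) := by omega
    have h11 : ((i : ℤ) + 2) ∣ 1 := by
      refine ⟨(i + 3) * a - (i + 4) * a', ?_⟩
      have h12 : ((i : ℤ) + 3) * ((i + 2) * a + 1) = (i + 4) * ((i + 2) * a' + 1) := by
        exact_mod_cast h10
      linear_combination -h12
    have h12 := Int.le_of_dvd one_pos h11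
    omega
  · have h10 : ((i : ℤ) + 3) ∣ 1 := by
      obtain ⟨b, hb⟩ := h3
      refine ⟨(κ' : ℤ) - b + ((((i + 2) * a + 1 : ℕ) : ℤ) - k'), ?_⟩
      have e4 : ((n : ℤ) + 1) = (i + 3) * κ' + k' := by exact_mod_cast h9'
      have e5 : (n : ℤ) = (i + 3) * b := by exact_mod_cast hb
      have e6 : ((i : ℤ) + 3) * (((i + 2) * a + 1 : ℕ) : ℤ) = (i + 4) * k' := by
        have : (i + 3) * ((i + 2) * a + 1) = (i + 4) * k' := by omega
        exact_mod_cast this
      linear_combination e4 - e5 - e6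
    have h12 := Int.le_of_dvd one_pos h10
    omega

lemma count_mult {L : ℕ} (hL : 0 < L) (u v : ℕ) :
    (v - u) / L ≤ #{r ∈ Ico u v | L ∣ r} := by
  have h1 : (range ((v - u) / L)).card ≤ #{r ∈ Ico u v | L ∣ r} := by
    refine Finset.card_le_card_of_injOn (fun t => L * ((u + L - 1) / L + t)) ?_ ?_
    · intro t ht
      rw [coe_range, Set.mem_Iio] at ht
      change L * ((u + L - 1) / L + t) ∈ ((({r ∈ Ico u v | L ∣ r} : Finset ℕ)) : Set ℕ)
      rw [mem_coe, mem_filter, mem_Ico]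
      have h2 := Nat.div_add_mod (u + L - 1) L
      have h3 := Nat.mod_lt (u + L - 1) hL
      have h4 : L * (t + 1) ≤ L * ((v - u) / L) := Nat.mul_le_mul_left _ ht
      have h5 : L * ((v - u) / L) ≤ v - u := Nat.mul_div_le _ _
      have h6 : L * (t + 1) = L * t + L := by ring
      rw [mul_add]
      exact ⟨⟨by omega, by omega⟩, ⟨(u + L - 1) / L + t, by ring⟩⟩
    · intro t _ t' _ he
      have h2 := Nat.eq_of_mul_eq_mul_left hL he
      omega
  rwa [card_range] at h1

lemma s_split {j N u v w : ℕ} (huv : u ≤ v) (hvw : v ≤ w) (hw : N < w) :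
    s j N = #{r ∈ Ico 0 u | r ∈ S N j} + #{r ∈ Ico u v | r ∈ S N j} +
      #{r ∈ Ico v w | r ∈ S N j} := by
  have h1 : S N j = {r ∈ Ico 0 w | r ∈ S N j} := by
    ext r
    rw [mem_filter, mem_Ico]
    constructor
    · intro h
      have h2 := mem_S_bound h
      have h3 : r ≤ (j + 2) * r := Nat.le_mul_of_pos_left r (by omega)
      exact ⟨⟨Nat.zero_le _, by omega⟩, h⟩
    · exact fun h => h.2
  have h2 : Ico 0 w = (Ico 0 u ∪ Ico u v) ∪ Ico v w := by
    rw [Ico_union_Ico_eq_Ico (Nat.zero_le _) huv, Ico_union_Ico_eq_Ico (Nat.zero_le _) hvw]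
  have h3 : Disjoint (Ico 0 u) (Ico u v) := Ico_disjoint_Ico_consecutive _ _ _
  have h4 : Disjoint (Ico 0 u ∪ Ico u v) (Ico v w) := by
    rw [Ico_union_Ico_eq_Ico (Nat.zero_le _) huv]
    exact Ico_disjoint_Ico_consecutive _ _ _
  unfold s
  conv_lhs => rw [h1, h2, filter_union, filter_union]
  rw [card_union_of_disjoint, card_union_of_disjoint (disjoint_filter_filter h3)]
  rw [← filter_union]
  exact disjoint_filter_filter h4

/-- The gain. -/
theorem gain (i : ℕ) : ∃ (B : ℕ) (η C : ℝ), 0 < B ∧ 0 < η ∧ ∀ t : ℕ, 0 < t →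
    (s (i + 2) (B * t) : ℝ) + η * ((B * t : ℕ) : ℝ) ≤ s (i + 2) (B * t + 1) + C := by
  set L := (i + 4).factorial with hL
  have hL0 : 0 < L := Nat.factorial_pos _
  set D := (i + 5) * (i + 6) with hD
  have hD0 : 0 < D := by positivity
  set K := 8 * D * L with hK
  have hK0 : 0 < K := by positivity
  obtain ⟨C1, hC1⟩ := main (i + 2) K hK0
  obtain ⟨C0, hC0⟩ := main (i + 1) K hK0
  refine ⟨K.factorial ^ (i + 2) * (i + 6).factorial, 1 / (2 * D * L),
    2 * C1 + 2 * C0 + 4, by positivity, by positivity, fun t ht => ?_⟩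
  set n := K.factorial ^ (i + 2) * (i + 6).factorial * t with hn
  have d1 : K.factorial ^ (i + 2) ∣ n := Dvd.intro _ (by rw [hn, mul_assoc])
  have d2 : K.factorial ^ (i + 1) ∣ n := (pow_dvd_pow _ (by omega)).trans d1
  have d3 : (i + 6).factorial ∣ n := ⟨K.factorial ^ (i + 2) * t, by rw [hn]; ring⟩
  have d4 : (i + 4).factorial ∣ n := (Nat.factorial_dvd_factorial (by omega)).trans d3
  have d5 : (i + 2) ∣ n := (Nat.dvd_factorial (by omega) (by omega)).trans d3
  have d6 : (i + 3) ∣ n := (Nat.dvd_factorial (by omega) (by omega)).trans d3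
  have d7 : D ∣ n := by
    have : (i + 6).factorial = D * (i + 4).factorial := by
      rw [Nat.factorial_succ (i + 5), Nat.factorial_succ (i + 4), hD]
      ring
    exact (Dvd.intro _ this.symm).trans d3
  obtain ⟨m, hm⟩ := d7
  have hn0 : 0 < n := by positivity
  have hm0 : 0 < m := by
    rcases Nat.eq_zero_or_pos m with rfl | h
    · rw [mul_zero] at hm; omega
    · exact h
  set u := (i + 5) * m + 1 with hu
  set v := (i + 6) * m with hv
  have huv : u ≤ v := by rw [hu, hv]; nlinarith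
  have hn1 : (i + 6) * ((i + 5) * m) = n := by rw [hm, hD]; ring
  have hn2 : (i + 5) * v = n := by rw [hm, hD, hv]; ring
  have hun : n < (i + 6) * u := by rw [hu, mul_add, hn1]; omega
  have hvn : v ≤ n := by
    have : v ≤ (i + 5) * v := Nat.le_mul_of_pos_left v (by omega)
    omega
  -- the middle part
  have a1 := card_le_card (sub_P (i := i + 1) (u := u) (v := v) hun)
  have a2 := card_union_add_card_inter (P u v n (i + 1) (i + 3)) (P u v n (i + 1) (i + 4))
  have a3 := card_le_card (inter_P (i := i + 1) (n := n) (u := u) (v := v) d4 (by omega) hn2.le)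
  have a4 := count_mult hL0 u v
  have a5 := P_compare hC0 (u := u) (v := v) (c := i + 3) d2 (by omega) hvn (by omega)
  have a6 := P_compare hC0 (u := u) (v := v) (c := i + 4) d2 (by omega) hvn (by omega)
  have a7 : (P u v (n + 1) (i + 1) (i + 3)).card + (P u v (n + 1) (i + 1) (i + 4)).card ≤
      #{r ∈ Ico u v | r ∈ S (n + 1) (i + 2)} := by
    rw [← card_union_of_disjoint (P_disj d5 d6 hn2.le)]
    exact card_le_card (union_subset (P_sub (i := i + 1) hn2.le (by omega))
      (P_sub (i := i + 1) hn2.le (by omega)))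
  -- the other parts
  have b1 := hC1 n d1 0 u
  have b2 := hC1 n d1 v (n + 2)
  have b3 := s_split (j := i + 2) (N := n) huv (w := n + 2) (by omega) (by omega)
  have b4 := s_split (j := i + 2) (N := n + 1) huv (w := n + 2) (by omega) (by omega)
  have key : s (i + 2) n + (v - u) / L ≤ s (i + 2) (n + 1) + 4 * (n / K) + 2 * C1 + 2 * C0 + 2 := by
    change #{r ∈ Ico u v | r ∈ S n (i + 2)} ≤
      (P u v n (i + 1) (i + 3) ∪ P u v n (i + 1) (i + 4)).card at a1
    change #{r ∈ Ico u v | L ∣ r} ≤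
      (P u v n (i + 1) (i + 3) ∩ P u v n (i + 1) (i + 4)).card at a3
    omega
  have c1 : (m : ℝ) - 1 ≤ L * (((v - u) / L : ℕ) : ℝ) + L := by
    have h1 := Nat.div_add_mod (v - u) L
    have h2 := Nat.mod_lt (v - u) hL0
    have h3 : v - u = m - 1 := by
      rw [hu, hv]
      have : (i + 6) * m = (i + 5) * m + m := by ring
      omega
    rw [h3] at h1 h2 ⊢
    have h4 : m ≤ L * ((m - 1) / L) + L + 1 := by omega
    have h5 : (m : ℝ) ≤ L * (((m - 1) / L : ℕ) : ℝ) + L + 1 := by exact_mod_cast h4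
    linarith
  have c2 : ((n / K : ℕ) : ℝ) ≤ (n : ℝ) / K := Nat.cast_div_le
  have c3 : (n : ℝ) = D * m := by exact_mod_cast hm
  have c4 : (K : ℝ) = 8 * D * L := by rw [hK]; push_cast; ring
  have hLr : (1 : ℝ) ≤ L := by exact_mod_cast hL0
  have hDr : (0 : ℝ) < D := by exact_mod_cast hD0
  have key' : (s (i + 2) n : ℝ) + (((v - u) / L : ℕ) : ℝ) ≤
      s (i + 2) (n + 1) + 4 * ((n / K : ℕ) : ℝ) + 2 * C1 + 2 * C0 + 2 := by exact_mod_cast key
  have c5 : (m : ℝ) / L - 2 ≤ (((v - u) / L : ℕ) : ℝ) := by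
    rw [sub_le_iff_le_add, div_le_iff₀ (by linarith)]
    nlinarith
  have c6 : (n : ℝ) / K = m / (8 * L) := by
    rw [c3, c4]
    field_simp
  have c7 : 1 / (2 * (D : ℝ) * L) * n = m / (2 * L) := by
    rw [c3]
    field_simp
  have c8 : (m : ℝ) / L = m / (2 * L) + 4 * (m / (8 * L)) := by
    field_simp
    ring
  rw [c7]
  rw [c6] at c2
  linarith

end blocks

/-- For `j ≥ 2` the sequence `s_j(n) / n` does not converge. -/
theorem not_tendsto (j : ℕ) (hj : 2 ≤ j) (L : ℝ) :
    ¬ Tendsto (fun n : ℕ => (s j n : ℝ) / n) atTop (𝓝 L) := by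
  intro hL
  obtain ⟨i, rfl⟩ := Nat.exists_eq_add_of_le hj
  rw [add_comm] at hL
  obtain ⟨B, η, C, hB, hη, h⟩ := gain i
  have hBr : (0 : ℝ) < B := by exact_mod_cast hB
  have t1 : Tendsto (fun t : ℕ => B * (t + 1)) atTop atTop :=
    tendsto_atTop_mono (fun t => (Nat.le_succ t).trans (Nat.le_mul_of_pos_left _ hB)) tendsto_id
  have t2 : Tendsto (fun t : ℕ => B * (t + 1) + 1) atTop atTop :=
    tendsto_atTop_mono (fun t => by omega) t1
  have e1 := hL.comp t1
  have e2 := hL.comp t2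
  have t3 : Tendsto (fun t : ℕ => ((B * (t + 1) : ℕ) : ℝ)) atTop atTop :=
    tendsto_natCast_atTop_atTop.comp t1
  have e3 : Tendsto (fun t : ℕ => (1 : ℝ) / ((B * (t + 1) : ℕ) : ℝ)) atTop (𝓝 0) :=
    t3.const_div_atTop 1
  have e4 : Tendsto (fun t : ℕ => C / ((B * (t + 1) : ℕ) : ℝ)) atTop (𝓝 0) :=
    t3.const_div_atTop C
  have e5 := (e2.mul (e3.const_add 1)).add e4
  have e6 := e1.add_const η
  have e7 := le_of_tendsto_of_tendsto' e6 e5 ?_
  · linarith
  · intro t
    simp only [Function.comp]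
    have h1 := h (t + 1) (Nat.succ_pos _)
    have h2 : (0 : ℝ) < ((B * (t + 1) : ℕ) : ℝ) := by positivity
    generalize hn : B * (t + 1) = n at h1 h2 ⊢
    have h3 : ((n + 1 : ℕ) : ℝ) = n + 1 := by push_cast; ring
    rw [h3]
    have h4 : (s (i + 2) (n + 1) : ℝ) / ((n : ℝ) + 1) * (1 + 1 / (n : ℝ)) =
        s (i + 2) (n + 1) / n := by
      field_simp
    rw [h4, div_add' _ _ _ h2.ne', ← add_div]
    exact div_le_div_of_nonneg_right (by linarith) h2.le

/-- **Iterated remainder sets have no density.** For every `j ≥ 2` the sequence `s_j(n) / n` does not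
converge, i.e. `liminf s_j(n) / n < limsup s_j(n) / n`. -/
theorem result (j : ℕ) (hj : 2 ≤ j) :
    (¬ ∃ L : ℝ, Tendsto (fun n : ℕ => (s j n : ℝ) / n) atTop (𝓝 L)) ∧
      liminf (fun n : ℕ => (s j n : ℝ) / n) atTop < limsup (fun n : ℕ => (s j n : ℝ) / n) atTop := by
  have h0 : ∀ n : ℕ, 0 ≤ (s j n : ℝ) / n := fun n => by positivity
  have h1 : ∀ n : ℕ, (s j n : ℝ) / n ≤ 2 := by
    intro n
    rcases Nat.eq_zero_or_pos n with rfl | hn
    · simp
    · have h2 : s j n ≤ 2 * n := by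
        have h3 : S n j ⊆ range (n + 1) := by
          intro r hr
          have h4 := mem_S_bound hr
          have h5 : r ≤ (j + 2) * r := Nat.le_mul_of_pos_left r (by omega)
          rw [mem_range]
          omega
        have h4 := card_le_card h3
        rw [card_range] at h4
        unfold s
        omega
      rw [div_le_iff₀ (by exact_mod_cast hn)]
      exact_mod_cast h2
  have hb : IsBoundedUnder (· ≤ ·) atTop (fun n : ℕ => (s j n : ℝ) / n) :=
    isBoundedUnder_of ⟨2, h1⟩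
  have hb' : IsBoundedUnder (· ≥ ·) atTop (fun n : ℕ => (s j n : ℝ) / n) :=
    isBoundedUnder_of ⟨0, h0⟩
  refine ⟨fun ⟨L, hL⟩ => not_tendsto j hj L hL, ?_⟩
  refine lt_of_le_of_ne (liminf_le_limsup hb hb') fun he => ?_
  exact not_tendsto j hj _ (tendsto_of_liminf_eq_limsup he rfl hb hb')

end Pool.Agent.Results.MP_376bf0_nt.NoDensity
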